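import Mathlib
import Pool.Agent.V11128.ForestGame

namespace Pool.Agent.Results.MP_488bb9_co.ForestValue

open Pool.Agent.V11128.ForestGame Pool.Agent.V11128.ForestGame.Fo
open scoped Classical

universe u

/-- Outcomes of the sum of a partizan game (positions `X`, moves `M p x y` for the player `p`,
where `true` is White = Left and `false` is Black = Right) with the integer game `k`, in which
White can move from `k` to `k - 1` if `k` is positive and Black can move from `k` to `k + 1`
if `k` is negative.  `Out M true p x k` says that the player `p`, about to move, wins;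
`Out M false p x k` says that the player `p`, about to move, loses.  A player without a
legal move loses. -/
inductive Out {X : Type u} (M : Bool → X → X → Prop) : Bool → Bool → X → ℤ → Prop
  | win_move {p : Bool} {x y : X} {k : ℤ} :
      M p x y → Out M false (!p) y k → Out M true p x k
  | win_pos {x : X} {k : ℤ} : 0 < k → Out M false false x (k - 1) → Out M true true x k
  | win_neg {x : X} {k : ℤ} : k < 0 → Out M false true x (k + 1) → Out M true false x k
  | lose {p : Bool} {x : X} {k : ℤ} :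
      (∀ y, M p x y → Out M true (!p) y k) →
      (p = true → 0 < k → Out M true false x (k - 1)) →
      (p = false → k < 0 → Out M true true x (k + 1)) → Out M false p x k

/-- The game at position `x` equals the integer `n`: the sum of the game with the integer
game `-n` is lost by whoever moves first. -/
def HasValue {X : Type u} (M : Bool → X → X → Prop) (x : X) (n : ℤ) : Prop :=
  Out M false true x (-n) ∧ Out M false false x (-n)

theorem out_of {X : Type u} (M : Bool → X → X → Prop) (rank : X → ℕ)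
    (hrank : ∀ p x y, M p x y → rank y < rank x) (R : X → ℤ → Prop)
    (ha : ∀ x n y, R x n → M true x y → ∃ m, R y m ∧ m ≤ n - 1)
    (hb : ∀ x n y, R x n → M false x y → ∃ m, R y m ∧ n + 1 ≤ m)
    (hc : ∀ x n, R x n → 0 < n → ∃ y, M true x y ∧ R y (n - 1))
    (hd : ∀ x n, R x n → n < 0 → ∃ y, M false x y ∧ R y (n + 1)) :
    ∀ (t : ℕ) (x : X) (n k : ℤ), R x n → rank x + k.natAbs < t →
      (0 < n + k → Out M true true x k) ∧ (0 ≤ n + k → Out M false false x k) ∧
      (n + k < 0 → Out M true false x k) ∧ (n + k ≤ 0 → Out M false true x k) := by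
  intro t
  induction t with
  | zero => intro x n k _ h; omega
  | succ t ih =>
    intro x n k hR ht
    refine ⟨fun h => ?_, fun h => ?_, fun h => ?_, fun h => ?_⟩
    · by_cases hk : 0 < k
      · exact Out.win_pos hk ((ih x n (k - 1) hR (by omega)).2.1 (by omega))
      · obtain ⟨y, hy, hRy⟩ := hc x n hR (by omega)
        have := hrank _ _ _ hy
        exact Out.win_move hy ((ih y (n - 1) k hRy (by omega)).2.1 (by omega))
    · refine Out.lose (fun y hy => ?_) (fun h => absurd h (by simp)) (fun _ hk => ?_)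
      · obtain ⟨m, hm, hnm⟩ := hb x n y hR hy
        have := hrank _ _ _ hy
        exact (ih y m k hm (by omega)).1 (by omega)
      · exact (ih x n (k + 1) hR (by omega)).1 (by omega)
    · by_cases hk : k < 0
      · exact Out.win_neg hk ((ih x n (k + 1) hR (by omega)).2.2.2 (by omega))
      · obtain ⟨y, hy, hRy⟩ := hd x n hR (by omega)
        have := hrank _ _ _ hy
        exact Out.win_move hy ((ih y (n + 1) k hRy (by omega)).2.2.2 (by omega))
    · refine Out.lose (fun y hy => ?_) (fun _ hk => ?_) (fun h => absurd h (by simp))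
      · obtain ⟨m, hm, hnm⟩ := ha x n y hR hy
        have := hrank _ _ _ hy
        exact (ih y m k hm (by omega)).2.2.1 (by omega)
      · exact (ih x n (k - 1) hR (by omega)).2.2.1 (by omega)

theorem out_excl {X : Type u} (M : Bool → X → X → Prop) {w p : Bool} {x : X} {k : ℤ}
    (h : Out M w p x k) : ¬ Out M (!w) p x k := by
  induction h with
  | win_move h1 _ ih =>
    intro h2
    cases h2 with
    | lose a b c => exact ih (a _ h1)
  | win_pos h1 _ ih =>
    intro h2
    cases h2 with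
    | lose a b c => exact ih (b rfl h1)
  | win_neg h1 _ ih =>
    intro h2
    cases h2 with
    | lose a b c => exact ih (c rfl h1)
  | lose _ _ _ ih1 ih2 ih3 =>
    intro h2
    cases h2 with
    | win_move a b => exact ih1 _ a b
    | win_pos a b => exact ih2 rfl a b
    | win_neg a b => exact ih3 rfl a b

section Poset

variable {P : Type u} [PartialOrder P]

/-- The min-max-removal game: the position `S` is the set of elements still present; the
player `p` deletes an element of colour `p` which is maximal or minimal in `S`. -/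
def Move (col : P → Bool) (p : Bool) (S S' : Set P) : Prop :=
  ∃ x ∈ S, col x = p ∧ ((∀ y ∈ S, ¬ x < y) ∨ (∀ y ∈ S, ¬ y < x)) ∧ S' = S \ {x}

/-- `f` represents the sub-poset `S` -/
def Rep (col : P → Bool) : Fo → Set P → Prop
  | nil, S => S = ∅
  | cons c ch rest, S => ∃ (r : P) (A B : Set P), S = insert r (A ∪ B) ∧ col r = c ∧
      (∀ a ∈ A, r < a) ∧ (∀ b ∈ B, ¬ r ≤ b ∧ ¬ b ≤ r) ∧
      (∀ a ∈ A, ∀ b ∈ B, ¬ a ≤ b ∧ ¬ b ≤ a) ∧ Rep col ch A ∧ Rep col rest B

theorem rep_empty {col : P → Bool} {f : Fo} (h : Rep col f ∅) : f = nil := by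
  cases f with
  | nil => rfl
  | cons c ch rest =>
    obtain ⟨r, A, B, h1, -⟩ := h
    have : r ∈ (∅ : Set P) := h1 ▸ Set.mem_insert _ _
    exact this.elim

theorem rep_app {col : P → Bool} : ∀ (f g : Fo) (A B : Set P), Rep col f A → Rep col g B →
    (∀ a ∈ A, ∀ b ∈ B, ¬ a ≤ b ∧ ¬ b ≤ a) → Rep col (app f g) (A ∪ B)
  | nil, g, A, B, hf, hg, _ => by
    have : A = ∅ := hf
    rw [this, Set.empty_union]
    exact hg
  | cons c ch rest, g, A, B, hf, hg, h => by
    obtain ⟨r, A1, A2, rfl, h2, h3, h4, h5, h6, h7⟩ := hf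
    refine ⟨r, A1, A2 ∪ B, ?_, h2, h3, ?_, ?_, h6, ?_⟩
    · rw [Set.insert_union, Set.union_assoc]
    · rintro b (hb | hb)
      · exact h4 b hb
      · exact h r (Set.mem_insert _ _) b hb
    · rintro a ha b (hb | hb)
      · exact h5 a ha b hb
      · exact h a (Or.inr (Or.inl ha)) b hb
    · exact rep_app rest g A2 B h7 hg (fun a ha => h a (Or.inr (Or.inr ha)))

theorem rt1 {col : P → Bool} {p : Bool} : ∀ (f : Fo) (S : Set P) (x : P), Rep col f S → x ∈ S →
    col x = p → (∀ y ∈ S, ¬ y < x) → ∃ f', Rt p f f' ∧ Rep col f' (S \ {x})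
  | nil, S, x, h, hx, _, _ => by
    have : S = ∅ := h
    rw [this] at hx
    exact hx.elim
  | cons c ch rest, S, x, h, hx, hp, hm => by
    obtain ⟨r, A, B, rfl, h2, h3, h4, h5, h6, h7⟩ := h
    rcases hx with rfl | hx | hx
    · subst h2
      subst hp
      refine ⟨_, Rt.here ch rest, ?_⟩
      have : insert x (A ∪ B) \ {x} = A ∪ B := by
        ext w
        constructor
        · rintro ⟨rfl | hw, hw2⟩
          · exact absurd rfl hw2
          · exact hw
        · intro hw
          refine ⟨Or.inr hw, ?_⟩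
          rintro rfl
          rcases hw with hw | hw
          · exact lt_irrefl _ (h3 w hw)
          · exact (h4 w hw).1 le_rfl
      rw [this]
      exact rep_app ch rest A B h6 h7 h5
    · exact absurd (h3 x hx) (hm r (Set.mem_insert _ _))
    · obtain ⟨f', h8, h9⟩ := rt1 rest B x h7 hx hp (fun y hy => hm y (Or.inr (Or.inr hy)))
      refine ⟨_, Rt.rest c ch h8, r, A, B \ {x}, ?_, h2, h3, fun b hb => h4 b hb.1,
        fun a ha b hb => h5 a ha b hb.1, h6, h9⟩
      ext w
      constructor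
      · rintro ⟨rfl | hw | hw, hw2⟩
        · exact Or.inl rfl
        · exact Or.inr (Or.inl hw)
        · exact Or.inr (Or.inr ⟨hw, hw2⟩)
      · rintro (rfl | hw | hw)
        · refine ⟨Or.inl rfl, ?_⟩
          rintro rfl
          exact (h4 w hx).1 le_rfl
        · refine ⟨Or.inr (Or.inl hw), ?_⟩
          rintro rfl
          exact (h5 w hw w hx).1 le_rfl
        · exact ⟨Or.inr (Or.inr hw.1), hw.2⟩

theorem lf1 {col : P → Bool} {p : Bool} : ∀ (f : Fo) (S : Set P) (x : P), Rep col f S → x ∈ S →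
    col x = p → (∀ y ∈ S, ¬ x < y) → ∃ f', Lf p f f' ∧ Rep col f' (S \ {x})
  | nil, S, x, h, hx, _, _ => by
    have : S = ∅ := h
    rw [this] at hx
    exact hx.elim
  | cons c ch rest, S, x, h, hx, hp, hm => by
    obtain ⟨r, A, B, rfl, h2, h3, h4, h5, h6, h7⟩ := h
    rcases hx with rfl | hx | hx
    · subst h2
      subst hp
      have hA : A = ∅ := by
        ext w
        simp only [Set.mem_empty_iff_false, iff_false]
        intro hw
        exact hm w (Or.inr (Or.inl hw)) (h3 w hw)
      subst hA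
      have hch := rep_empty h6
      subst hch
      refine ⟨_, Lf.here rest, ?_⟩
      have : insert x (∅ ∪ B) \ {x} = B := by
        ext w
        constructor
        · rintro ⟨rfl | hw | hw, hw2⟩
          · exact absurd rfl hw2
          · exact hw.elim
          · exact hw
        · intro hw
          refine ⟨Or.inr (Or.inr hw), ?_⟩
          rintro rfl
          exact (h4 w hw).1 le_rfl
      rw [this]
      exact h7
    · obtain ⟨f', h8, h9⟩ := lf1 ch A x h6 hx hp (fun y hy => hm y (Or.inr (Or.inl hy)))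
      refine ⟨_, Lf.up c rest h8, r, A \ {x}, B, ?_, h2, fun a ha => h3 a ha.1, h4,
        fun a ha b hb => h5 a ha.1 b hb, h9, h7⟩
      ext w
      constructor
      · rintro ⟨rfl | hw | hw, hw2⟩
        · exact Or.inl rfl
        · exact Or.inr (Or.inl ⟨hw, hw2⟩)
        · exact Or.inr (Or.inr hw)
      · rintro (rfl | hw | hw)
        · refine ⟨Or.inl rfl, ?_⟩
          rintro rfl
          exact lt_irrefl _ (h3 w hx)
        · exact ⟨Or.inr (Or.inl hw.1), hw.2⟩
        · refine ⟨Or.inr (Or.inr hw), ?_⟩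
          rintro rfl
          exact (h5 w hx w hw).1 le_rfl
    · obtain ⟨f', h8, h9⟩ := lf1 rest B x h7 hx hp (fun y hy => hm y (Or.inr (Or.inr hy)))
      refine ⟨_, Lf.rest c ch h8, r, A, B \ {x}, ?_, h2, h3, fun b hb => h4 b hb.1,
        fun a ha b hb => h5 a ha b hb.1, h6, h9⟩
      ext w
      constructor
      · rintro ⟨rfl | hw | hw, hw2⟩
        · exact Or.inl rfl
        · exact Or.inr (Or.inl hw)
        · exact Or.inr (Or.inr ⟨hw, hw2⟩)
      · rintro (rfl | hw | hw)
        · refine ⟨Or.inl rfl, ?_⟩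
          rintro rfl
          exact (h4 w hx).1 le_rfl
        · refine ⟨Or.inr (Or.inl hw), ?_⟩
          rintro rfl
          exact (h5 w hw w hx).1 le_rfl
        · exact ⟨Or.inr (Or.inr hw.1), hw.2⟩

theorem rt2 {col : P → Bool} {p : Bool} {f f' : Fo} (h : Rt p f f') : ∀ S : Set P, Rep col f S →
    ∃ x ∈ S, col x = p ∧ (∀ y ∈ S, ¬ y < x) ∧ Rep col f' (S \ {x}) := by
  induction h with
  | here ch rest =>
    intro S hS
    obtain ⟨r, A, B, rfl, h2, h3, h4, h5, h6, h7⟩ := hS
    refine ⟨r, Set.mem_insert _ _, h2, ?_, ?_⟩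
    · rintro y (rfl | hy | hy) hlt
      · exact lt_irrefl _ hlt
      · exact lt_irrefl _ (hlt.trans (h3 y hy))
      · exact (h4 y hy).2 hlt.le
    · have : insert r (A ∪ B) \ {r} = A ∪ B := by
        ext w
        constructor
        · rintro ⟨rfl | hw, hw2⟩
          · exact absurd rfl hw2
          · exact hw
        · intro hw
          refine ⟨Or.inr hw, ?_⟩
          rintro rfl
          rcases hw with hw | hw
          · exact lt_irrefl _ (h3 w hw)
          · exact (h4 w hw).1 le_rfl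
      rw [this]
      exact rep_app ch rest A B h6 h7 h5
  | rest c ch _ ih =>
    intro S hS
    obtain ⟨r, A, B, rfl, h2, h3, h4, h5, h6, h7⟩ := hS
    obtain ⟨x, hx, hp, hm, h9⟩ := ih B h7
    refine ⟨x, Or.inr (Or.inr hx), hp, ?_, r, A, B \ {x}, ?_, h2, h3, fun b hb => h4 b hb.1,
        fun a ha b hb => h5 a ha b hb.1, h6, h9⟩
    · rintro y (rfl | hy | hy) hlt
      · exact (h4 x hx).1 hlt.le
      · exact (h5 y hy x hx).1 hlt.le
      · exact hm y hy hlt
    · ext w
      constructor
      · rintro ⟨rfl | hw | hw, hw2⟩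
        · exact Or.inl rfl
        · exact Or.inr (Or.inl hw)
        · exact Or.inr (Or.inr ⟨hw, hw2⟩)
      · rintro (rfl | hw | hw)
        · refine ⟨Or.inl rfl, ?_⟩
          rintro rfl
          exact (h4 w hx).1 le_rfl
        · refine ⟨Or.inr (Or.inl hw), ?_⟩
          rintro rfl
          exact (h5 w hw w hx).1 le_rfl
        · exact ⟨Or.inr (Or.inr hw.1), hw.2⟩

theorem lf2 {col : P → Bool} {p : Bool} {f f' : Fo} (h : Lf p f f') : ∀ S : Set P, Rep col f S →
    ∃ x ∈ S, col x = p ∧ (∀ y ∈ S, ¬ x < y) ∧ Rep col f' (S \ {x}) := by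
  induction h with
  | here rest =>
    intro S hS
    obtain ⟨r, A, B, rfl, h2, h3, h4, h5, h6, h7⟩ := hS
    have hA : A = ∅ := h6
    subst hA
    refine ⟨r, Set.mem_insert _ _, h2, ?_, ?_⟩
    · rintro y (rfl | hy | hy) hlt
      · exact lt_irrefl _ hlt
      · exact hy.elim
      · exact (h4 y hy).1 hlt.le
    · have : insert r (∅ ∪ B) \ {r} = B := by
        ext w
        constructor
        · rintro ⟨rfl | hw | hw, hw2⟩
          · exact absurd rfl hw2
          · exact hw.elim
          · exact hw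
        · intro hw
          refine ⟨Or.inr (Or.inr hw), ?_⟩
          rintro rfl
          exact (h4 w hw).1 le_rfl
      rw [this]
      exact h7
  | rest c ch _ ih =>
    intro S hS
    obtain ⟨r, A, B, rfl, h2, h3, h4, h5, h6, h7⟩ := hS
    obtain ⟨x, hx, hp, hm, h9⟩ := ih B h7
    refine ⟨x, Or.inr (Or.inr hx), hp, ?_, r, A, B \ {x}, ?_, h2, h3, fun b hb => h4 b hb.1,
        fun a ha b hb => h5 a ha b hb.1, h6, h9⟩
    · rintro y (rfl | hy | hy) hlt
      · exact (h4 x hx).2 hlt.le
      · exact (h5 y hy x hx).2 hlt.le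
      · exact hm y hy hlt
    · ext w
      constructor
      · rintro ⟨rfl | hw | hw, hw2⟩
        · exact Or.inl rfl
        · exact Or.inr (Or.inl hw)
        · exact Or.inr (Or.inr ⟨hw, hw2⟩)
      · rintro (rfl | hw | hw)
        · refine ⟨Or.inl rfl, ?_⟩
          rintro rfl
          exact (h4 w hx).1 le_rfl
        · refine ⟨Or.inr (Or.inl hw), ?_⟩
          rintro rfl
          exact (h5 w hw w hx).1 le_rfl
        · exact ⟨Or.inr (Or.inr hw.1), hw.2⟩
  | up c rest _ ih =>
    intro S hS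
    obtain ⟨r, A, B, rfl, h2, h3, h4, h5, h6, h7⟩ := hS
    obtain ⟨x, hx, hp, hm, h9⟩ := ih A h6
    refine ⟨x, Or.inr (Or.inl hx), hp, ?_, r, A \ {x}, B, ?_, h2, fun a ha => h3 a ha.1, h4,
        fun a ha b hb => h5 a ha.1 b hb, h9, h7⟩
    · rintro y (rfl | hy | hy) hlt
      · exact lt_irrefl _ (hlt.trans (h3 x hx))
      · exact hm y hy hlt
      · exact (h5 x hx y hy).1 hlt.le
    · ext w
      constructor
      · rintro ⟨rfl | hw | hw, hw2⟩
        · exact Or.inl rfl
        · exact Or.inr (Or.inl ⟨hw, hw2⟩)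
        · exact Or.inr (Or.inr hw)
      · rintro (rfl | hw | hw)
        · refine ⟨Or.inl rfl, ?_⟩
          rintro rfl
          exact lt_irrefl _ (h3 w hx)
        · exact ⟨Or.inr (Or.inl hw.1), hw.2⟩
        · refine ⟨Or.inr (Or.inr hw), ?_⟩
          rintro rfl
          exact (h5 w hx w hw).1 le_rfl

theorem move1 {col : P → Bool} {p : Bool} {f : Fo} {S S' : Set P} (h : Rep col f S)
    (hm : Move col p S S') : ∃ f', Mv p f f' ∧ Rep col f' S' := by
  obtain ⟨x, hx, hp, hmm, rfl⟩ := hm
  rcases hmm with h1 | h1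
  · obtain ⟨f', h2, h3⟩ := lf1 f S x h hx hp h1
    exact ⟨f', Or.inl h2, h3⟩
  · obtain ⟨f', h2, h3⟩ := rt1 f S x h hx hp h1
    exact ⟨f', Or.inr h2, h3⟩

theorem move2 {col : P → Bool} {p : Bool} {f f' : Fo} {S : Set P} (h : Rep col f S)
    (hm : Mv p f f') : ∃ S', Move col p S S' ∧ Rep col f' S' := by
  rcases hm with h1 | h1
  · obtain ⟨x, hx, hp, hmm, h2⟩ := lf2 h1 S h
    exact ⟨_, ⟨x, hx, hp, Or.inl hmm, rfl⟩, h2⟩
  · obtain ⟨x, hx, hp, hmm, h2⟩ := rt2 h1 S h
    exact ⟨_, ⟨x, hx, hp, Or.inr hmm, rfl⟩, h2⟩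

theorem hasValue_of_rep [Finite P] {col : P → Bool} {f : Fo} {S : Set P} (h : Rep col f S)
    (n : ℤ) : HasValue (Move col) S n ↔ n = v f := by
  have key := out_of (Move col) (fun S : Set P => S.ncard) ?_
    (fun S n => ∃ f, Rep col f S ∧ v f = n) ?_ ?_ ?_ ?_
  · have h1 := key _ S (v f) (-n) ⟨f, h, rfl⟩ (Nat.lt_succ_self _)
    constructor
    · rintro ⟨h2, h3⟩
      by_contra h4
      rcases lt_or_gt_of_ne h4 with h5 | h5
      · exact out_excl _ (h1.1 (by omega)) h2
      · exact out_excl _ (h1.2.2.1 (by omega)) h3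
    · rintro rfl
      exact ⟨h1.2.2.2 (by omega), h1.2.1 (by omega)⟩
  · rintro p S S' ⟨x, hx, -, -, rfl⟩
    exact Set.ncard_sdiff_singleton_lt_of_mem hx
  · rintro S n S' ⟨f, hf, rfl⟩ hm
    obtain ⟨f', h1, h2⟩ := move1 hf hm
    exact ⟨v f', ⟨f', h2, rfl⟩, v_white h1⟩
  · rintro S n S' ⟨f, hf, rfl⟩ hm
    obtain ⟨f', h1, h2⟩ := move1 hf hm
    exact ⟨v f', ⟨f', h2, rfl⟩, v_black h1⟩
  · rintro S n ⟨f, hf, rfl⟩ hn
    obtain ⟨f', h1, h2⟩ := white_move f hn
    obtain ⟨S', h3, h4⟩ := move2 hf h1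
    exact ⟨S', h3, f', h4, h2⟩
  · rintro S n ⟨f, hf, rfl⟩ hn
    obtain ⟨f', h1, h2⟩ := black_move f hn
    obtain ⟨S', h3, h4⟩ := move2 hf h1
    exact ⟨S', h3, f', h4, h2⟩

/-- `P` is a forest poset: every element covers at most one element. -/
def IsForest (P : Type u) [PartialOrder P] : Prop := ∀ x y z : P, y ⋖ x → z ⋖ x → y = z

theorem chain_below [Finite P] (hF : IsForest P) : ∀ x y z : P, y ≤ x → z ≤ x → y ≤ z ∨ z ≤ y := by
  intro x
  induction x using WellFoundedLT.induction with
  | ind x ih =>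
    intro y z hy hz
    rcases hy.eq_or_lt with rfl | hy
    · exact Or.inr hz
    rcases hz.eq_or_lt with rfl | hz
    · exact Or.inl hy.le
    obtain ⟨y', hy1, hy2⟩ := exists_le_covBy_of_lt hy
    obtain ⟨z', hz1, hz2⟩ := exists_le_covBy_of_lt hz
    have := hF x y' z' hy2 hz2
    subst this
    exact ih y' hy2.lt y z hy1 hz1

theorem rep_exists [Finite P] (hF : IsForest P) (col : P → Bool) : ∀ (n : ℕ) (S : Set P),
    S.ncard ≤ n → ∃ f, Rep col f S := by
  intro n
  induction n with
  | zero =>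
    intro S hS
    have : S = ∅ := by
      rw [← Set.ncard_eq_zero]
      omega
    exact ⟨nil, this⟩
  | succ n ih =>
    intro S hS
    by_cases hne : S.Nonempty
    · obtain ⟨r, hr⟩ := (Set.toFinite S).exists_minimal hne
      have hrS := hr.1
      have hmin : ∀ y ∈ S, ¬ y < r := fun y hy hlt => hlt.not_ge (hr.2 hy hlt.le)
      have hc : ∀ T : Set P, T ⊆ S \ {r} → T.ncard ≤ n := by
        intro T hT
        have h1 := Set.ncard_le_ncard hT
        have h2 := Set.ncard_sdiff_singleton_lt_of_mem hrS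
        omega
      obtain ⟨ch, hch⟩ := ih {x | x ∈ S ∧ r < x} (hc _ (fun x hx => ⟨hx.1, fun h => by
        rw [Set.mem_singleton_iff.1 h] at hx
        exact lt_irrefl _ hx.2⟩))
      obtain ⟨rest, hrest⟩ := ih {x | x ∈ S ∧ ¬ r ≤ x} (hc _ (fun x hx => ⟨hx.1, fun h => by
        rw [Set.mem_singleton_iff.1 h] at hx
        exact hx.2 le_rfl⟩))
      refine ⟨cons (col r) ch rest, r, _, _, ?_, rfl, fun a ha => ha.2, ?_, ?_, hch, hrest⟩
      · ext w
        constructor
        · intro hw
          by_cases h : r ≤ w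
          · rcases h.eq_or_lt with h | h
            · exact Or.inl h.symm
            · exact Or.inr (Or.inl ⟨hw, h⟩)
          · exact Or.inr (Or.inr ⟨hw, h⟩)
        · rintro (rfl | hw | hw)
          · exact hrS
          · exact hw.1
          · exact hw.1
      · rintro b ⟨hb1, hb2⟩
        refine ⟨hb2, fun h => ?_⟩
        rcases h.eq_or_lt with h | h
        · exact hb2 h.ge
        · exact hmin b hb1 h
      · rintro a ⟨ha1, ha2⟩ b ⟨hb1, hb2⟩
        refine ⟨fun h => hb2 (ha2.le.trans h), fun h => ?_⟩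
        rcases chain_below hF a r b ha2.le h with h1 | h1
        · exact hb2 h1
        · rcases h1.eq_or_lt with h2 | h2
          · exact hb2 h2.ge
          · exact hmin b hb1 h2
    · rw [Set.not_nonempty_iff_eq_empty] at hne
      exact ⟨nil, hne⟩

/-- `a` is the bottom of a blocking triple `a ⋖ b ⋖ c`: `a` and `b` have the same colour and
`c` has the other colour -/
def Blocking (col : P → Bool) (a : P) : Prop :=
  ∃ b c : P, a ⋖ b ∧ b ⋖ c ∧ col b = col a ∧ col c ≠ col a

/-- `x` lies in the essential part, the largest upper set containing no blocking triple -/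
def Essential (col : P → Bool) (x : P) : Prop := ∀ a : P, x ≤ a → ¬ Blocking col a

/-- The function `delta`: it is `0` on the essential part, and for the other elements `x` it is
`max 0 (1 + s)` if `x` is white and `min 0 (-1 + s)` if `x` is black, where `s` is the sum of
`delta` over the elements covering `x`. -/
noncomputable def delta [Fintype P] (col : P → Bool) : P → ℤ :=
  (wellFounded_gt (α := P)).fix fun x ih =>
    if Essential col x then 0
    else if col x = true then max 0 (1 + ∑ y : P, if h : x ⋖ y then ih y h.lt else 0)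
    else min 0 (-1 + ∑ y : P, if h : x ⋖ y then ih y h.lt else 0)

theorem delta_eq [Fintype P] (col : P → Bool) (x : P) : delta col x =
    if Essential col x then 0
    else if col x = true then max 0 (1 + ∑ y : P, if x ⋖ y then delta col y else 0)
    else min 0 (-1 + ∑ y : P, if x ⋖ y then delta col y else 0) := by
  have h := (wellFounded_gt (α := P)).fix_eq (fun x ih =>
    if Essential col x then 0
    else if col x = true then max 0 (1 + ∑ y : P, if h : x ⋖ y then ih y h.lt else 0)
    else min 0 (-1 + ∑ y : P, if h : x ⋖ y then ih y h.lt else (0 : ℤ))) x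
  rw [delta, h]
  simp only [dite_eq_ite]

/-- sum over a set -/
noncomputable def sumOn [Fintype P] (S : Set P) (g : P → ℤ) : ℤ := ∑ x : P, S.indicator g x

/-- minimal elements of a set -/
def mins (S : Set P) : Set P := {x | x ∈ S ∧ ∀ y ∈ S, ¬ y < x}

theorem sumOn_insert [Fintype P] (r : P) (A B : Set P) (g : P → ℤ) (hA : r ∉ A) (hB : r ∉ B)
    (hAB : ∀ x ∈ A, x ∉ B) : sumOn (insert r (A ∪ B)) g = g r + sumOn A g + sumOn B g := by
  have h : ∀ x, (insert r (A ∪ B)).indicator g x =
      (if x = r then g x else 0) + A.indicator g x + B.indicator g x := by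
    intro x
    by_cases h1 : x = r
    · subst h1
      rw [Set.indicator_of_mem (Set.mem_insert _ _), Set.indicator_of_notMem hA,
        Set.indicator_of_notMem hB]
      simp
    · by_cases h2 : x ∈ A
      · have h4 : x ∈ insert r (A ∪ B) := Or.inr (Or.inl h2)
        rw [Set.indicator_of_mem h4, Set.indicator_of_mem h2,
          Set.indicator_of_notMem (hAB x h2)]
        simp [h1]
      · by_cases h3 : x ∈ B
        · have h4 : x ∈ insert r (A ∪ B) := Or.inr (Or.inr h3)
          rw [Set.indicator_of_mem h4, Set.indicator_of_notMem h2,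
            Set.indicator_of_mem h3]
          simp [h1]
        · rw [Set.indicator_of_notMem h2, Set.indicator_of_notMem h3,
            Set.indicator_of_notMem]
          · simp [h1]
          · rintro (h4 | h4 | h4)
            · exact h1 h4
            · exact h2 h4
            · exact h3 h4
  rw [sumOn, Finset.sum_congr rfl fun x _ => h x, Finset.sum_add_distrib,
    Finset.sum_add_distrib]
  simp [sumOn]

section link

variable {col : P → Bool} {c : Bool} {ch rest : Fo} {r : P} {A B : Set P}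

theorem upA (hS : ∀ x ∈ insert r (A ∪ B), ∀ y, x ≤ y → y ∈ insert r (A ∪ B))
    (_h3 : ∀ a ∈ A, r < a) (h4 : ∀ b ∈ B, ¬ r ≤ b ∧ ¬ b ≤ r)
    {x : P} (hx : r < x) : x ∈ A := by
  rcases hS r (Set.mem_insert _ _) x hx.le with h | h | h
  · exact absurd h.symm hx.ne
  · exact h
  · exact absurd hx.le (h4 x h).1

theorem covBy_iff (hS : ∀ x ∈ insert r (A ∪ B), ∀ y, x ≤ y → y ∈ insert r (A ∪ B))
    (h3 : ∀ a ∈ A, r < a) (h4 : ∀ b ∈ B, ¬ r ≤ b ∧ ¬ b ≤ r) (x : P) :
    r ⋖ x ↔ x ∈ mins A := by
  constructor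
  · intro h
    exact ⟨upA hS h3 h4 h.lt, fun y hy hlt => h.2 (h3 y hy) hlt⟩
  · rintro ⟨h1, h2⟩
    exact ⟨h3 x h1, fun y hy hlt => h2 y (upA hS h3 h4 hy) hlt⟩

theorem upB (hS : ∀ x ∈ insert r (A ∪ B), ∀ y, x ≤ y → y ∈ insert r (A ∪ B))
    (h4 : ∀ b ∈ B, ¬ r ≤ b ∧ ¬ b ≤ r) (h5 : ∀ a ∈ A, ∀ b ∈ B, ¬ a ≤ b ∧ ¬ b ≤ a) :
    ∀ x ∈ B, ∀ y, x ≤ y → y ∈ B := by
  intro x hx y hy
  rcases hS x (Or.inr (Or.inr hx)) y hy with h | h | h
  · exact absurd (h ▸ hy) (h4 x hx).2
  · exact absurd hy (h5 y h x hx).2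
  · exact h

theorem mins_insert (h3 : ∀ a ∈ A, r < a) (h4 : ∀ b ∈ B, ¬ r ≤ b ∧ ¬ b ≤ r)
    (h5 : ∀ a ∈ A, ∀ b ∈ B, ¬ a ≤ b ∧ ¬ b ≤ a) :
    mins (insert r (A ∪ B)) = insert r (∅ ∪ mins B) := by
  ext x
  constructor
  · rintro ⟨h | h | h, h2⟩
    · exact Or.inl h
    · exact absurd (h3 x h) (h2 r (Set.mem_insert _ _))
    · exact Or.inr (Or.inr ⟨h, fun y hy => h2 y (Or.inr (Or.inr hy))⟩)
  · rintro (rfl | h | h)
    · refine ⟨Or.inl rfl, ?_⟩
      rintro y (rfl | hy | hy) hlt
      · exact lt_irrefl _ hlt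
      · exact lt_irrefl _ (hlt.trans (h3 y hy))
      · exact (h4 y hy).2 hlt.le
    · exact h.elim
    · refine ⟨Or.inr (Or.inr h.1), ?_⟩
      rintro y (rfl | hy | hy) hlt
      · exact (h4 x h.1).1 hlt.le
      · exact (h5 y hy x h.1).1 hlt.le
      · exact h.2 y hy hlt

end link

theorem hasCol_iff {col : P → Bool} (d : Bool) : ∀ (f : Fo) (S : Set P), Rep col f S →
    (hasCol d f = true ↔ ∃ x ∈ mins S, col x = d)
  | nil, S, h => by
    have : S = ∅ := h
    subst this
    simp [hasCol, mins]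
  | cons c ch rest, S, h => by
    obtain ⟨r, A, B, rfl, h2, h3, h4, h5, h6, h7⟩ := h
    rw [mins_insert h3 h4 h5]
    simp only [hasCol, Bool.or_eq_true, hasCol_iff d rest B h7, Set.mem_insert_iff,
      Set.mem_union, Set.mem_empty_iff_false, false_or, beq_iff_eq]
    constructor
    · rintro (h | ⟨x, hx, hd⟩)
      · exact ⟨r, Or.inl rfl, h2.trans h⟩
      · exact ⟨x, Or.inr hx, hd⟩
    · rintro ⟨x, rfl | hx, hd⟩
      · exact Or.inl (h2.symm.trans hd)
      · exact Or.inr ⟨x, hx, hd⟩

theorem wit_iff {col : P → Bool} (d : Bool) : ∀ (f : Fo) (S : Set P), Rep col f S →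
    (∀ x ∈ S, ∀ y, x ≤ y → y ∈ S) →
    (wit d f = true ↔ ∃ x ∈ mins S, col x = d ∧ ∃ y, x ⋖ y ∧ col y = !d)
  | nil, S, h, _ => by
    have : S = ∅ := h
    subst this
    simp [wit, mins]
  | cons c ch rest, S, h, hS => by
    obtain ⟨r, A, B, rfl, h2, h3, h4, h5, h6, h7⟩ := h
    rw [mins_insert h3 h4 h5]
    simp only [wit, Bool.or_eq_true, Bool.and_eq_true, wit_iff d rest B h7 (upB hS h4 h5),
      hasCol_iff (!d) ch A h6, Set.mem_insert_iff, Set.mem_union, Set.mem_empty_iff_false,
      false_or, beq_iff_eq]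
    constructor
    · rintro (⟨h, y, hy, hd⟩ | ⟨x, hx, hd⟩)
      · exact ⟨r, Or.inl rfl, h2.trans h, y, (covBy_iff hS h3 h4 y).2 hy, hd⟩
      · exact ⟨x, Or.inr hx, hd⟩
    · rintro ⟨x, rfl | hx, hd, y, hy, hyd⟩
      · exact Or.inl ⟨h2.symm.trans hd, y, (covBy_iff hS h3 h4 y).1 hy, hyd⟩
      · exact Or.inr ⟨x, hx, hd, y, hy, hyd⟩

theorem blocking_iff {col : P → Bool} {ch : Fo} {r : P} {A B : Set P}
    (hS : ∀ x ∈ insert r (A ∪ B), ∀ y, x ≤ y → y ∈ insert r (A ∪ B))
    (h3 : ∀ a ∈ A, r < a) (h4 : ∀ b ∈ B, ¬ r ≤ b ∧ ¬ b ≤ r) (h6 : Rep col ch A) :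
    wit (col r) ch = true ↔ Blocking col r := by
  have hA : ∀ x ∈ A, ∀ y, x ≤ y → y ∈ A := fun x hx y hy =>
    upA hS h3 h4 ((h3 x hx).trans_le hy)
  rw [wit_iff (col r) ch A h6 hA]
  constructor
  · rintro ⟨b, hb, hb2, y, hy, hy2⟩
    refine ⟨b, y, (covBy_iff hS h3 h4 b).2 hb, hy, hb2, ?_⟩
    rw [hy2]
    simp
  · rintro ⟨b, y, hb, hy, hb2, hy2⟩
    exact ⟨b, (covBy_iff hS h3 h4 b).1 hb, hb2, y, hy, Bool.eq_not.2 hy2⟩

theorem good_iff {col : P → Bool} : ∀ (f : Fo) (S : Set P), Rep col f S →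
    (∀ x ∈ S, ∀ y, x ≤ y → y ∈ S) →
    (good f = true ↔ ∀ x ∈ S, ¬ Blocking col x)
  | nil, S, h, _ => by
    have : S = ∅ := h
    subst this
    simp [good]
  | cons c ch rest, S, h, hS => by
    obtain ⟨r, A, B, rfl, rfl, h3, h4, h5, h6, h7⟩ := h
    have hA : ∀ x ∈ A, ∀ y, x ≤ y → y ∈ A := fun x hx y hy =>
      upA hS h3 h4 ((h3 x hx).trans_le hy)
    have hb := blocking_iff hS h3 h4 h6
    rw [good_cons, gt, Bool.and_eq_true, Bool.and_eq_true, Bool.not_eq_true',
      good_iff ch A h6 hA, good_iff rest B h7 (upB hS h4 h5)]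
    rw [← Bool.not_eq_true, hb]
    constructor
    · rintro ⟨⟨g1, g2⟩, g3⟩ x (rfl | hx | hx)
      · exact g1
      · exact g2 x hx
      · exact g3 x hx
    · intro g
      exact ⟨⟨g r (Or.inl rfl), fun x hx => g x (Or.inr (Or.inl hx))⟩,
        fun x hx => g x (Or.inr (Or.inr hx))⟩

theorem gt_iff {col : P → Bool} {ch : Fo} {r : P} {A B : Set P}
    (hS : ∀ x ∈ insert r (A ∪ B), ∀ y, x ≤ y → y ∈ insert r (A ∪ B))
    (h3 : ∀ a ∈ A, r < a) (h4 : ∀ b ∈ B, ¬ r ≤ b ∧ ¬ b ≤ r) (h6 : Rep col ch A) :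
    gt (col r) ch = true ↔ Essential col r := by
  have hA : ∀ x ∈ A, ∀ y, x ≤ y → y ∈ A := fun x hx y hy =>
    upA hS h3 h4 ((h3 x hx).trans_le hy)
  rw [gt, Bool.and_eq_true, Bool.not_eq_true', ← Bool.not_eq_true, blocking_iff hS h3 h4 h6,
    good_iff ch A h6 hA]
  constructor
  · rintro ⟨g1, g2⟩ a ha
    rcases ha.eq_or_lt with rfl | h
    · exact g1
    · exact g2 a (upA hS h3 h4 h)
  · intro g
    exact ⟨g r le_rfl, fun x hx => g x (h3 x hx).le⟩

theorem u_sum [Fintype P] {col : P → Bool} : ∀ (f : Fo) (S : Set P), Rep col f S →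
    (∀ x ∈ S, ∀ y, x ≤ y → y ∈ S) →
    u f = sumOn S (fun x => if Essential col x then sg (col x) else 0)
  | nil, S, h, _ => by
    have : S = ∅ := h
    subst this
    simp [u, sumOn]
  | cons c ch rest, S, h, hS => by
    obtain ⟨r, A, B, rfl, rfl, h3, h4, h5, h6, h7⟩ := h
    have hA : ∀ x ∈ A, ∀ y, x ≤ y → y ∈ A := fun x hx y hy =>
      upA hS h3 h4 ((h3 x hx).trans_le hy)
    rw [sumOn_insert r A B _ (fun h => lt_irrefl _ (h3 r h)) (fun h => (h4 r h).1 le_rfl)
      (fun x hx hx' => (h5 x hx x hx').1 le_rfl)]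
    simp only [u, u_sum ch A h6 hA, u_sum rest B h7 (upB hS h4 h5), gt_iff hS h3 h4 h6]

theorem dl_sum [Fintype P] {col : P → Bool} : ∀ (f : Fo) (S : Set P), Rep col f S →
    (∀ x ∈ S, ∀ y, x ≤ y → y ∈ S) → dl f = sumOn (mins S) (delta col)
  | nil, S, h, _ => by
    have : S = ∅ := h
    subst this
    simp [dl, sumOn, mins]
  | cons c ch rest, S, h, hS => by
    obtain ⟨r, A, B, rfl, rfl, h3, h4, h5, h6, h7⟩ := h
    have hA : ∀ x ∈ A, ∀ y, x ≤ y → y ∈ A := fun x hx y hy =>
      upA hS h3 h4 ((h3 x hx).trans_le hy)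
    rw [mins_insert h3 h4 h5, sumOn_insert r ∅ (mins B) _ (fun h => h)
      (fun h => (h4 r h.1).1 le_rfl) (fun x hx => hx.elim)]
    have h8 : (∑ y : P, if r ⋖ y then delta col y else 0) = dl ch := by
      rw [dl_sum ch A h6 hA, sumOn]
      refine Finset.sum_congr rfl fun y _ => ?_
      simp only [covBy_iff hS h3 h4 y, Set.indicator]
    rw [delta_eq, h8]
    simp only [dl, dl_sum rest B h7 (upB hS h4 h5), gt_iff hS h3 h4 h6]
    simp [sumOn]

/-- The value of the min-max-removal game on a coloured forest poset `P`: it is the number of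
white minus the number of black essential elements, plus the sum of `delta` over the roots. -/
theorem result (P : Type u) [PartialOrder P] [Fintype P] (hF : IsForest P) (col : P → Bool)
    (n : ℤ) : HasValue (Move col) (Set.univ : Set P) n ↔
      n = (∑ x : P, if Essential col x then (if col x = true then 1 else -1) else 0) +
        ∑ x : P, if IsMin x then delta col x else 0 := by
  obtain ⟨f, hf⟩ := rep_exists hF col _ (Set.univ : Set P) le_rfl
  have h := hasValue_of_rep hf n
  have hS : ∀ x ∈ (Set.univ : Set P), ∀ y, x ≤ y → y ∈ (Set.univ : Set P) :=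
    fun _ _ _ _ => trivial
  have e : v f = (∑ x : P, if Essential col x then (if col x = true then 1 else -1) else 0) +
        ∑ x : P, if IsMin x then delta col x else 0 := by
    rw [v, u_sum f _ hf hS, dl_sum f _ hf hS]
    congr 1
    · refine Finset.sum_congr rfl fun x _ => ?_
      have hx : sg (col x) = if col x = true then 1 else -1 := by
        cases col x <;> rfl
      rw [Set.indicator_of_mem (Set.mem_univ x), hx]
    · refine Finset.sum_congr rfl fun x _ => ?_
      have : x ∈ mins (Set.univ : Set P) ↔ IsMin x := by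
        simp only [mins, Set.mem_univ, true_and, true_implies]
        exact ⟨fun h y hy => by_contra fun h2 => h y (lt_of_le_not_ge hy h2),
          fun h y hy => hy.not_ge (h hy.le)⟩
      simp only [this, Set.indicator]
  rw [e] at h
  exact h

end Poset

end Pool.Agent.Results.MP_488bb9_co.ForestValue
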